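import Mathlib

set_option autoImplicit false

namespace Pool.Agent.Results.MP_d2c770_co.Diff

open Function

variable {V : Type} [DecidableEq V]

/-- Alice has a winning strategy from the position `c`; the flag is `true` when she is to move -/
inductive Win (G : SimpleGraph V) (k : ℕ) : Bool → (V → Option (Fin k)) → Prop
  | done (t : Bool) (c : V → Option (Fin k)) : (∀ v, c v ≠ none) →
      (∀ i v, ∃ u, c u = some i ∧ (u = v ∨ G.Adj v u)) → Win G k t c
  | alice (c : V → Option (Fin k)) (v : V) (i : Fin k) : c v = none →
      Win G k false (update c v (some i)) → Win G k true c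
  | bob (c : V → Option (Fin k)) : (∃ v, c v = none) →
      (∀ v i, c v = none → Win G k true (update c v (some i))) → Win G k false c

/-- domatic game number; `t = true` when Alice starts -/
noncomputable def gam (G : SimpleGraph V) (t : Bool) : ℕ :=
  sSup {k | 1 ≤ k ∧ Win G k t fun _ => none}

theorem sim (G : SimpleGraph V) (k : ℕ) (o : Fin k) (s : Fin (k + 1)) (t : Bool)
    (d : V → Option (Fin (k + 1))) (h : Win G (k + 1) t d) : ∀ (c : V → Option (Fin k)) (x : V),
      c x = none → d x = some s → (∀ v, v ≠ x → (c v = none ↔ d v = none)) →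
      (∀ v i, d v = some (s.succAbove i) → c v = some i) → Win G k t c := by
  induction h with
  | done t d h1 h2 =>
    intro c x a1 a2 a3 a4
    have key : ∀ t j, Win G k t (update c x (some j)) := by
      intro t j
      refine .done _ _ (fun v => ?_) fun i v => ?_
      · have := a3 v
        have := h1 v
        grind
      · obtain ⟨u, h3, h4⟩ := h2 (s.succAbove i) v
        have := a4 u i h3
        exact ⟨u, by grind, h4⟩
    cases t
    · refine .bob _ ⟨x, a1⟩ fun v j hv => ?_
      have : v = x := by
        by_contra e
        exact h1 v ((a3 v e).1 hv)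
      exact this ▸ key _ _
    · exact .alice _ x o a1 (key _ _)
  | alice d v j h1 _ ih =>
    intro c x a1 a2 a3 a4
    have e : v ≠ x := by grind
    obtain ⟨i, hi⟩ : ∃ i, ∀ i', j = s.succAbove i' → i' = i := by
      by_cases k : ∃ i, j = s.succAbove i
      · obtain ⟨i, rfl⟩ := k
        exact ⟨i, fun i' h => (Fin.succAbove_right_injective h).symm⟩
      · exact ⟨o, fun i' h => absurd ⟨i', h⟩ k⟩
    refine .alice _ v i ((a3 v e).2 h1) (ih _ x (by grind) (by grind) (fun w hw => ?_) fun w i' => ?_)
    · have := a3 w hw
      grind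
    · have := a4 w i'
      have := hi i'
      grind
  | bob d h1 _ ih =>
    intro c x a1 a2 a3 a4
    refine .bob _ ⟨x, a1⟩ fun v j hv => ?_
    by_cases e : v = x
    · obtain ⟨w, hw⟩ := h1
      have e' : w ≠ x := by grind
      have := (a3 w e').2 hw
      refine ih w s hw _ w (by grind) (by grind) (fun u hu => ?_) fun u i => ?_
      · have := a3 u
        grind
      · have := a4 u i
        have := Fin.succAbove_ne s i
        grind
    · refine ih v s ((a3 v e).1 hv) _ x (by grind) (by grind) (fun u hu => ?_) fun u i => ?_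
      · have := a3 u hu
        grind
      · have := a4 u i
        have := Fin.succAbove_ne s i
        have := (a3 v e).1 hv
        grind

theorem bdd [Fintype V] [Nonempty V] (G : SimpleGraph V) (k : ℕ) (hk : 1 ≤ k) (t : Bool)
    (c : V → Option (Fin k)) (h : Win G k t c) : k ≤ Fintype.card V := by
  induction h with
  | done t c _ h2 =>
    choose f hf using fun i => h2 i (Classical.arbitrary V)
    simpa using Fintype.card_le_of_injective f fun i j e => by
      have := (hf i).1
      rw [e, (hf j).1] at this
      exact (Option.some.inj this).symm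
  | alice _ _ _ _ _ ih => exact ih
  | bob _ h _ ih => exact h.elim fun v hv => ih v ⟨0, hk⟩ hv

theorem one [Fintype V] [Nonempty V] (G : SimpleGraph V) (t : Bool) :
    gam G t ≤ gam G (!t) + 1 := by
  have b : ∀ t, BddAbove {k | 1 ≤ k ∧ Win G k t fun _ => none} := fun t =>
    ⟨_, fun k hk => bdd G k hk.1 t _ hk.2⟩
  refine csSup_le' fun k hk => ?_
  obtain ⟨h1, h2⟩ := hk
  obtain ⟨k, rfl⟩ : ∃ j, k = j + 1 := ⟨k - 1, by omega⟩
  rcases Nat.eq_zero_or_pos k with rfl | hk
  · omega
  refine Nat.succ_le_succ (le_csSup (b _) ⟨hk, ?_⟩)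
  generalize e : (fun _ : V => (none : Option (Fin (k + 1)))) = d at h2
  cases h2 with
  | done _ _ h _ => exact absurd (by rw [← e]) (h (Classical.arbitrary V))
  | alice _ v i _ h =>
    subst e
    exact sim G k ⟨0, hk⟩ i _ _ h _ v rfl (by simp) (by grind) fun w j => by
      have := Fin.succAbove_ne i j
      grind
  | bob _ h0 h =>
    subst e
    obtain ⟨v, -⟩ := h0
    exact sim G k ⟨0, hk⟩ 0 _ _ (h v 0 rfl) _ v rfl (by simp) (by grind) fun w j => by
      have := Fin.succAbove_ne 0 j
      grind

theorem result (V : Type) [DecidableEq V] [Fintype V] [Nonempty V] (G : SimpleGraph V) :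
    |(gam G true : ℤ) - gam G false| ≤ 1 := by
  have h1 := one G true
  have h2 := one G false
  simp only [Bool.not_true, Bool.not_false] at h1 h2
  rw [abs_le]
  omega

end Pool.Agent.Results.MP_d2c770_co.Diff
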